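import Pool.Agent.P.MP_514f39_an.Main

/-!
A minimal sequence with property (U) in a separable Hilbert space (`ℓ²`, real or complex) none of whose
permutations is a Schauder basis.  This answers Q1 and Q2 in the negative.
-/

namespace Pool.Agent.Old.MP_514f39_an.NoPermutationBasis

open Filter Topology

variable {E : Type*} [NormedAddCommGroup E]

/-- The series `∑ u n`, summed in the given order, converges in norm to `y`. -/
def SeriesTo (u : ℕ → E) (y : E) : Prop :=
  Tendsto (fun N => ∑ n ∈ Finset.range N, u n) atTop (𝓝 y)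

variable (𝕜 : Type*) [RCLike 𝕜] [NormedSpace 𝕜 E]

/-- `x` is a Schauder basis: every `y` has exactly one scalar sequence `α` with `y = ∑ α n • x n`. -/
def IsBasis (x : ℕ → E) : Prop :=
  ∀ y : E, ∃! α : ℕ → 𝕜, SeriesTo (fun n => α n • x n) y

/-- `x` is minimal: no `x m` lies in the closed linear span of the other terms. -/
def IsMinimal (x : ℕ → E) : Prop :=
  ∀ m : ℕ, x m ∉ closure (Submodule.span 𝕜 (x '' {n | n ≠ m}) : Set E)

/-- Property (U): every `y` has exactly one scalar sequence `α` for which some bijection `σ` of `ℕ`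
gives `y = ∑ α (σ i) • x (σ i)`. -/
def PropertyU (x : ℕ → E) : Prop :=
  ∀ y : E, ∃! α : ℕ → 𝕜, ∃ σ : ℕ ≃ ℕ, SeriesTo (fun i => α (σ i) • x (σ i)) y

open Pool.Agent.P.MP_514f39_an in
theorem result (𝕜 : Type) [RCLike 𝕜] :
    ∃ (H : Type) (_ : NormedAddCommGroup H) (_ : InnerProductSpace 𝕜 H) (_ : CompleteSpace H)
      (_ : TopologicalSpace.SeparableSpace H) (x : ℕ → H),
      PropertyU 𝕜 x ∧ IsMinimal 𝕜 x ∧ ∀ τ : ℕ ≃ ℕ, ¬ IsBasis 𝕜 (fun n => x (τ n)) := by
  let b : HilbertBasis ℕ 𝕜 (lp (fun _ : ℕ => 𝕜) 2) := default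
  refine ⟨lp (fun _ : ℕ => 𝕜) 2, inferInstance, inferInstance, inferInstance, separable b,
    xv b, ?_, minimal b, ?_⟩
  · intro y
    refine ⟨fun i => ff b i y, exists_expansion b y, ?_⟩
    rintro β ⟨π, hπ⟩
    funext n
    have := coeff_unique b y (fun i => β (π i)) π hπ (π.symm n)
    simpa using this
  · intro τ hτ
    refine not_basis b τ fun y => ?_
    obtain ⟨α, hα, -⟩ := hτ y
    have h : α = fun j => ff b (τ j) y := funext (coeff_unique b y α τ hα)
    subst h
    exact hα

end Pool.Agent.Old.MP_514f39_an.NoPermutationBasis
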